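import Pool.Agent.TH942.OS.Curve
import Pool.Agent.TH942.MN.Crit
import Pool.Agent.TH942.RZ.Curve
import Pool.Agent.TH942.RZ.Self

/-!
# A one-sided law: the Riemann hypothesis and the inequality `order of vanishing ≤ rank`

Let `C : y² = x³ + a x + b` be an elliptic curve over `ℚ`, `a, b ∈ ℤ`, let `N_p` be the number of affine
points modulo a prime `p ∤ 2Δ`, and let `N(X)` be the number of rational points of `C` (with the point at
infinity) whose `x`-coordinate `m/n` has `max (|m|, n) ≤ X`, so that `N(X)² ≍ (log X)^rank`. Birch and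
Swinnerton-Dyer compared `N(X)²` with `∏_{p ≤ X} (N_p + 1)/p`. Goldfeld (1982) proved that an asymptotic
formula for this product implies the Riemann hypothesis for `C`. Here only an UPPER bound for such products is
needed: the following are equivalent for every curve.

* The order of vanishing of the `L`-function at `1` is AT MOST the rank, and the `L`-function has no zeros with
  `Re s > 1` (by the functional equation this is the Riemann hypothesis for `C`).
* For every real `k > 0`, `N(X)² ≥ A Π_k(X)` for large `X` with some `A > 0`, where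
  `Π_k(X) = ∏_{p ≤ X, p ∤ 2Δ} ((N_p + 1)/p) ^ ((1 - log p / log X)^k)`.
* `N(X)² ≥ A Π_w(X)` for large `X`, with some `A > 0`, for ONE bounded measurable weight `w ≥ 0` on `(0, β]`, not
  almost everywhere zero near `β`, with `∫_0 |w(u) - 1| du/u < ∞`, where
  `Π_w(X) = ∏_{p ≤ X^β} ((N_p + 1)/p) ^ w(log p / log X)` (`w = 1` on `(0, 1]` is the product of Birch and
  Swinnerton-Dyer).
* `Π_w(X) ≤ N(X)² (log X)^ε` for large `X`, for every `ε > 0` and one such `w`.
* The lower limit of the Riesz means of the sum of Mestre and Nagao, `(log X)⁻¹ ∑_{p ≤ X} (1 - log p / log X)^k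
  a_p (log p) / p`, is at least `(1/2 - rank) / (k + 1)`, for every `k > 0` (equivalently, for one `k > 0`).

So if `C(ℚ)` is finite, the products `Π_k(X)` are bounded if and only if `L(C, 1) ≠ 0` and the Riemann hypothesis
holds for `C`.

Proof. If the logarithm `S_w(T)` of `Π_w(e^T)` is bounded above by `K T`, Landau's lemma applies to the Laplace
transform of `A e^{α T} - S_w(T) ≥ 0`. A real zero `1 + ξ` of order `m`, `ξ > 0`, contributes
`h(T) = m ∫_0^β w(u) (e^{u ξ T} - 1) du/u ≥ 0` to `S_w`; the lemma applied to `A e^{α T} - S_w(T) + h(T) ≥ 0`, whose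
transform is regular slightly to the left of `β ξ`, would make the transform of `h` converge there, which is false.
Hence there are no real zeros beyond `1`, the transform of `|S_w|` converges for all `s > 0`, and complex zeros
are excluded as their contributions are singularities. An Abelian argument at `s = 0` bounds the order by the
rank. The converse uses the asymptotic formula for `Π_k` under the Riemann hypothesis for `C`.
-/

set_option autoImplicit false

namespace Pool.Agent.Results.MP_8b7eba_nt.OneSidedLaw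

open Pool.Agent.W263.BSD Filter Topology Classical MeasureTheory
open CongruenceSubgroup UpperHalfPlane
open scoped MatrixGroups

/-- The rank of the group of rational points of `y² = x³ + a x + b`. -/
noncomputable def rank (a b : ℤ) : ℕ :=
  Module.finrank ℤ
    (WeierstrassCurve.Affine.Point
      (WeierstrassCurve.toAffine
        ({ a₁ := 0, a₂ := 0, a₃ := 0, a₄ := (a : ℚ), a₆ := (b : ℚ) } : WeierstrassCurve ℚ)))

/-- The number of rational points of `y² = x³ + a x + b`, the point at infinity included, with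
`max (|m|, n) ≤ X` for the `x`-coordinate `m / n` in lowest terms. -/
noncomputable def pointsUpTo (a b : ℤ) (X : ℝ) : ℕ :=
  Nat.card {P : ℚ × ℚ // P.2 ^ 2 = P.1 ^ 3 + a * P.1 + b ∧
    (max P.1.num.natAbs P.1.den : ℝ) ≤ X} + 1

/-- `Π_k(X)`: the product over the primes `p ≤ X`, `p ∤ 2Δ`, of the powers of `(N_p + 1) / p` with
exponents `(1 - log p / log X)^k`. -/
noncomputable def rieszProduct (a b : ℤ) (k X : ℝ) : ℝ :=
  ∏ p ∈ (Finset.range (⌊X⌋₊ + 1)).filter (GoodPrime a b),
    (((pointCount a b p : ℝ) + 1) / p) ^ ((1 - Real.log p / Real.log X) ^ k)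

/-- `Π_w(X)`: the product over the primes `p ≤ X^β`, `p ∤ 2Δ`, of the powers of `(N_p + 1) / p` with
exponents `w(log p / log X)`. -/
noncomputable def localProduct (a b : ℤ) (w : ℝ → ℝ) (β X : ℝ) : ℝ :=
  ∏ p ∈ (Finset.range (⌊X ^ β⌋₊ + 1)).filter (GoodPrime a b),
    (((pointCount a b p : ℝ) + 1) / p) ^ w (Real.log p / Real.log X)

/-- `a_p = p - N_p`. -/
noncomputable def ap (a b : ℤ) (p : ℕ) : ℝ := (p : ℝ) - pointCount a b p

/-- The Riesz mean of order `k` of the sum of Nagao: the sum over the primes `p ≤ X`, `p ∤ 2Δ`, of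
`(1 - log p / log X)^k a_p (log p) / p`, divided by `log X`. -/
noncomputable def nagaoMean (a b : ℤ) (k X : ℝ) : ℝ :=
  (∑ p ∈ (Finset.range (⌊X⌋₊ + 1)).filter (GoodPrime a b),
    (1 - Real.log p / Real.log X) ^ k * (ap a b p * Real.log p / p)) / Real.log X

/-- The admissible weights on `(0, β]`: nonnegative, bounded and measurable, not almost everywhere `0` on any
interval `(κ, β)`, with `∫_0^β |w(u) - 1| du/u < ∞`. -/
structure IsWeight (β : ℝ) (w : ℝ → ℝ) : Prop where
  pos : 0 < β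
  nonneg : ∀ u : ℝ, 0 < u → u ≤ β → 0 ≤ w u
  meas : Measurable w
  bdd : ∃ W : ℝ, ∀ u : ℝ, 0 < u → u ≤ β → |w u| ≤ W
  top : ∀ κ : ℝ, κ < β → ¬ ∀ᵐ u : ℝ, u ∈ Set.Ioo κ β → w u = 0
  dini : IntegrableOn (fun u : ℝ => |w u - 1| / u) (Set.Ioo 0 β)

/-- The `n`-th Fourier coefficient of `f`. -/
noncomputable def coef {N : ℕ} (f : CuspForm (Gamma0 N : Subgroup (GL (Fin 2) ℝ)) 2) (n : ℕ) : ℂ :=
  (qExpansion 1 f).coeff n

/-- `f ∈ S_2(Γ₀(N))` is the newform of the elliptic curve `E : y² = x³ + a x + b` of conductor `N`: the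
Fourier coefficients `c(n)` of `f` are real with `c(1) = 1`, they satisfy the Hecke relations
`c(mn) = c(m) c(n)` for coprime `m`, `n` and `c(p^(j+2)) = c(p) c(p^(j+1)) - p c(p^j)` (without the last
term if `p ∣ N`), `c(p) = a_p = p - N_p` (`N_p` affine points) for all primes `p ∤ 2Δ`, `|c(p)| ≤ 2 √p` for
all `p ∤ N` (Hasse) and `c(p) = 0, 1, -1` for `p ∣ N`. -/
structure IsNewformOf (a b : ℤ) (N : ℕ) (f : CuspForm (Gamma0 N : Subgroup (GL (Fin 2) ℝ)) 2) :
    Prop where
  one : coef f 1 = 1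
  real : ∀ n, (coef f n).im = 0
  mul : ∀ m n : ℕ, Nat.Coprime m n → coef f (m * n) = coef f m * coef f n
  pow : ∀ p j : ℕ, p.Prime → coef f (p ^ (j + 2)) = coef f p * coef f (p ^ (j + 1)) -
      (if p ∣ N then 0 else (p : ℂ) * coef f (p ^ j))
  points : ∀ p : ℕ, GoodPrime a b p → coef f p = (p : ℂ) - (pointCount a b p : ℂ)
  good : ∀ p : ℕ, p.Prime → ¬ p ∣ N → ‖coef f p‖ ≤ 2 * Real.sqrt p
  bad : ∀ p : ℕ, p.Prime → p ∣ N → coef f p = 0 ∨ coef f p = 1 ∨ coef f p = -1

variable {a b : ℤ} {F : ℂ → ℂ}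

theorem hecke {N : ℕ} {f : CuspForm (Gamma0 N : Subgroup (GL (Fin 2) ℝ)) 2}
    (hf : IsNewformOf a b N f) : Pool.Agent.TH941.Hecke f where
  one := hf.one
  real := hf.real
  mul := hf.mul
  pow := hf.pow
  good := hf.good
  bad := fun p hp h => by
    rcases hf.bad p hp h with h1 | h1 | h1
    · have h2 : ‖coef f p‖ ≤ 1 := by rw [h1]; simp
      exact h2
    · have h2 : ‖coef f p‖ ≤ 1 := by rw [h1]; simp
      exact h2
    · have h2 : ‖coef f p‖ ≤ 1 := by rw [h1]; simp
      exact h2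

theorem rs {N : ℕ} [NeZero N] {f : CuspForm (Gamma0 N : Subgroup (GL (Fin 2) ℝ)) 2}
    (hΔ : 4 * a ^ 3 + 27 * b ^ 2 ≠ 0) (hf : IsNewformOf a b N f) :
    Tendsto (Pool.Agent.W263.BSD.rsSum a b) atTop (𝓝 0) :=
  (hecke hf).rsSum_tendsto hΔ fun p hp => hf.points p hp

theorem loglog_tendsto : Tendsto (fun X : ℝ => Real.log (Real.log X)) atTop atTop :=
  Real.tendsto_log_atTop.comp Real.tendsto_log_atTop

theorem factor_pos {p : ℕ} (hp : GoodPrime a b p) : 0 < ((pointCount a b p : ℝ) + 1) / p := by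
  have hp0 : (0 : ℝ) < p := by exact_mod_cast hp.1.pos
  positivity

theorem rieszProduct_pos (a b : ℤ) (k X : ℝ) : 0 < rieszProduct a b k X :=
  Finset.prod_pos fun _ hp => Real.rpow_pos_of_pos (factor_pos (Finset.mem_filter.1 hp).2) _

theorem localProduct_pos (a b : ℤ) (w : ℝ → ℝ) (β X : ℝ) : 0 < localProduct a b w β X :=
  Finset.prod_pos fun _ hp => Real.rpow_pos_of_pos (factor_pos (Finset.mem_filter.1 hp).2) _

theorem log_rieszProduct (a b : ℤ) (k X : ℝ) :
    Real.log (rieszProduct a b k X) = TH942.RZ.rz a b k X := by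
  unfold rieszProduct TH942.RZ.rz
  rw [Real.log_prod fun p hp => (Real.rpow_pos_of_pos (factor_pos (Finset.mem_filter.1 hp).2) _).ne']
  refine Finset.sum_congr rfl fun p hp => ?_
  rw [Real.log_rpow (factor_pos (Finset.mem_filter.1 hp).2)]

theorem rzv_nonneg {k : ℝ} (hk : 0 < k) (u : ℝ) : 0 ≤ TH942.RZ.rzv k u := by
  unfold TH942.RZ.rzv
  refine Set.indicator_nonneg (fun x _ => ?_) u
  unfold TH942.RZ.rzw
  positivity

/-- the Riesz weight is admissible -/
theorem riesz_weight {k : ℝ} (hk : 0 < k) : IsWeight 1 (TH942.RZ.rzv k) where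
  pos := one_pos
  nonneg := fun u _ _ => rzv_nonneg hk u
  meas := (TH942.RZ.rzv_Wt hk).meas
  bdd := ⟨1, fun u _ _ => (TH942.RZ.rzv_Wt hk).bd u⟩
  top := TH942.RZ.rzv_top
  dini := TH942.RZ.rzv_dini hk

theorem riesz_eq_local {k : ℝ} {X : ℝ} (hX : 1 < X) :
    rieszProduct a b k X = localProduct a b (TH942.RZ.rzv k) 1 X := by
  unfold rieszProduct localProduct
  rw [Real.rpow_one]
  refine Finset.prod_congr rfl fun p hp => ?_
  obtain ⟨h1, h2⟩ := Finset.mem_filter.1 hp
  have hT : 0 < Real.log X := Real.log_pos hX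
  have hp1 : (1 : ℝ) < p := by exact_mod_cast h2.1.one_lt
  have h3 : (p : ℝ) ≤ X := by
    rw [Finset.mem_range, Nat.lt_succ_iff] at h1
    exact (Nat.le_floor_iff (by linarith)).1 h1
  have h4 : Real.log p / Real.log X ≤ 1 := by
    rw [div_le_one hT]
    exact Real.log_le_log (by linarith) h3
  have h5 : 0 < Real.log p / Real.log X := div_pos (Real.log_pos hp1) hT
  unfold TH942.RZ.rzv
  rw [Set.indicator_of_mem (show Real.log p / Real.log X ∈ Set.Ioc (0 : ℝ) 1 from ⟨h5, h4⟩)]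
  unfold TH942.RZ.rzw
  rw [max_eq_left (by linarith)]

/-- the number of points, exactly -/
theorem points_exact (hΔ : 4 * a ^ 3 + 27 * b ^ 2 ≠ 0) : ∃ κ : ℝ, 0 < κ ∧
    Tendsto (fun X : ℝ => (pointsUpTo a b X : ℝ) ^ 2 / Real.log X ^ (rank a b : ℝ)) atTop (𝓝 κ) := by
  obtain ⟨κ, hκ, h⟩ := TH942.ratCount_growth hΔ
  refine ⟨κ ^ 2, by positivity, ?_⟩
  have h1 := h.pow 2
  refine h1.congr' ?_
  filter_upwards [eventually_gt_atTop 1] with X hX
  have hl : 0 < Real.log X := Real.log_pos hX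
  rw [div_pow]
  have h7 : ((Real.log X) ^ ((Module.finrank ℤ (TH942.SPt (a : ℚ) (b : ℚ)) : ℝ) / 2)) ^ 2 =
      Real.log X ^ (rank a b : ℝ) := by
    rw [← Real.rpow_natCast, ← Real.rpow_mul hl.le]
    have : (rank a b : ℝ) = (Module.finrank ℤ (TH942.SPt (a : ℚ) (b : ℚ)) : ℝ) := rfl
    rw [this]
    congr 1
    push_cast
    ring
  rw [h7]
  rfl

theorem belongs {N : ℕ} {f : CuspForm (Gamma0 N : Subgroup (GL (Fin 2) ℝ)) 2}
    (hf : IsNewformOf a b N f) : Pool.Agent.TH941.Belongs a b f := fun p hp => hf.points p hp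

theorem nagao_eq (k : ℝ) {X : ℝ} (hX : 1 < X) :
    nagaoMean a b k X = TH942.LS.S TH942.LS.lm (TH942.MN.tE a b) (TH942.MN.nk k) (Real.log X) := by
  have hT : 0 < Real.log X := Real.log_pos hX
  unfold nagaoMean TH942.LS.S
  have hz : ∀ p ∉ (Finset.range (⌊X⌋₊ + 1)).filter (GoodPrime a b),
      TH942.MN.tE a b p * TH942.MN.nk k (TH942.LS.lm p / Real.log X) = 0 := by
    intro p hp
    by_cases hg : GoodPrime a b p
    · have h1 : p ∉ Finset.range (⌊X⌋₊ + 1) := fun h => hp (Finset.mem_filter.2 ⟨h, hg⟩)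
      rw [Finset.mem_range, not_lt] at h1
      have h2 : ⌊X⌋₊ < p := h1
      have h3 : X < p := (Nat.floor_lt (by linarith)).1 h2
      have h4 : Real.log X < Real.log p := Real.log_lt_log (by linarith) h3
      rw [TH942.MN.nk_gt k, mul_zero]
      rw [one_lt_div hT, TH942.LS.lm_eq hg.1.two_le]
      exact h4
    · rw [TH942.MN.tE_zero hg, zero_mul]
  rw [tsum_eq_sum hz, Finset.sum_div]
  refine Finset.sum_congr rfl fun p hp => ?_
  obtain ⟨h1, h2⟩ := Finset.mem_filter.1 hp
  have hp1 : (1 : ℝ) < p := by exact_mod_cast h2.1.one_lt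
  have h3 : (p : ℝ) ≤ X := by
    rw [Finset.mem_range, Nat.lt_succ_iff] at h1
    exact (Nat.le_floor_iff (by linarith)).1 h1
  have h4 : Real.log p / Real.log X ≤ 1 := by
    rw [div_le_one hT]
    exact Real.log_le_log (by linarith) h3
  have h5 : 0 < Real.log p / Real.log X := div_pos (Real.log_pos hp1) hT
  unfold TH942.MN.tE TH942.MN.nk ap
  rw [if_pos h2, TH942.LS.lm_eq h2.1.two_le,
    Set.indicator_of_mem (show Real.log p / Real.log X ∈ Set.Ioc (0 : ℝ) 1 from ⟨h5, h4⟩)]
  ring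

/-- a limit in `X` is a limit in `T = log X` -/
theorem tendsto_log_iff {g h : ℝ → ℝ} {ℓ : ℝ} (he : ∀ X : ℝ, 1 < X → g X = h (Real.log X)) :
    Tendsto g atTop (𝓝 ℓ) ↔ Tendsto h atTop (𝓝 ℓ) := by
  constructor
  · intro h1
    have h2 := h1.comp Real.tendsto_exp_atTop
    refine h2.congr' ?_
    filter_upwards [eventually_gt_atTop 0] with T hT
    rw [Function.comp_apply, he _ (Real.one_lt_exp_iff.2 hT), Real.log_exp]
  · intro h1
    have h2 := h1.comp Real.tendsto_log_atTop
    refine h2.congr' ?_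
    filter_upwards [eventually_gt_atTop 1] with X hX
    rw [Function.comp_apply, he X hX]

/-- **One-sided laws.** -/
theorem result (a b : ℤ) (hΔ : 4 * a ^ 3 + 27 * b ^ 2 ≠ 0) (F : ℂ → ℂ) (hF : IsLSeries a b F)
    (N : ℕ) [NeZero N] (f : CuspForm (Gamma0 N : Subgroup (GL (Fin 2) ℝ)) 2)
    (hf : IsNewformOf a b N f) : List.TFAE [
      analyticOrderAt F 1 ≤ rank a b ∧ ∀ s : ℂ, 1 < s.re → F s ≠ 0,
      ∀ k : ℝ, 0 < k → ∃ A : ℝ, 0 < A ∧ ∀ᶠ X : ℝ in atTop,
        A * rieszProduct a b k X ≤ (pointsUpTo a b X : ℝ) ^ 2,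
      ∃ (β : ℝ) (w : ℝ → ℝ), IsWeight β w ∧ ∃ A : ℝ, 0 < A ∧ ∀ᶠ X : ℝ in atTop,
        A * localProduct a b w β X ≤ (pointsUpTo a b X : ℝ) ^ 2,
      ∃ (β : ℝ) (w : ℝ → ℝ), IsWeight β w ∧ ∀ ε : ℝ, 0 < ε → ∀ᶠ X : ℝ in atTop,
        localProduct a b w β X ≤ (pointsUpTo a b X : ℝ) ^ 2 * Real.log X ^ ε,
      ∀ k : ℝ, 0 < k → ∀ ε : ℝ, 0 < ε → ∀ᶠ X : ℝ in atTop,
        (1 / 2 - rank a b) / (k + 1) - ε ≤ nagaoMean a b k X,
      ∃ k : ℝ, 0 < k ∧ ∀ ε : ℝ, 0 < ε → ∀ᶠ X : ℝ in atTop,
        (1 / 2 - rank a b) / (k + 1) - ε ≤ nagaoMean a b k X] := by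
  have hrs := rs hΔ hf
  have hh := hecke hf
  have hb := belongs hf
  have hgr := TH942.RZ.growth_newform hΔ hF hh hb
  obtain ⟨m, hm⟩ := Pool.Agent.W189.ML.order_finite_all hF 1
  have hle : analyticOrderAt F 1 ≤ rank a b ↔ m ≤ rank a b := by
    rw [hm]
    exact Nat.cast_le
  have hfree : (∀ s : ℂ, 0 < s.re → PhiF a b F s ≠ 0) → ∀ s : ℂ, 1 < s.re → F s ≠ 0 := by
    intro h s hs h0
    refine h (s - 1) (by simpa using hs) ?_
    unfold PhiF
    rw [add_sub_cancel, h0, zero_mul]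
  tfae_have 1 → 2 := by
    rintro ⟨h1, h2⟩ k hk
    have hmr : m ≤ rank a b := hle.1 h1
    obtain ⟨κ, h3, -⟩ := TH942.RZ.curve_riesz hΔ hrs hgr hF hm h2 hk
    obtain ⟨κ', hκ', h4⟩ := points_exact hΔ
    refine ⟨κ' / 2 / (2 * Real.exp κ), by positivity, ?_⟩
    have h5 := (Real.continuous_exp.tendsto κ).comp (h3.comp Real.tendsto_log_atTop)
    filter_upwards [h5.eventually_lt_const (show Real.exp κ < 2 * Real.exp κ by
        have := Real.exp_pos κ; linarith), h4.eventually_const_lt (show κ' / 2 < κ' by linarith),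
      eventually_ge_atTop (Real.exp 1)] with X h6 h7 hX
    have hX1 : 1 < X := by
      have := Real.exp_one_gt_d9
      linarith
    have hl1 : 1 ≤ Real.log X := by
      rwa [Real.le_log_iff_exp_le (by linarith)]
    have hl : 0 < Real.log X := by linarith
    simp only [Function.comp_apply] at h6
    rw [← TH942.RZ.rz_eq hk hX1, ← log_rieszProduct, Real.exp_sub,
      Real.exp_log (rieszProduct_pos a b k X), mul_comm (m : ℝ), ← Real.rpow_def_of_pos hl,
      div_lt_iff₀ (Real.rpow_pos_of_pos hl _)] at h6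
    rw [lt_div_iff₀ (Real.rpow_pos_of_pos hl _)] at h7
    have h8 : Real.log X ^ (m : ℝ) ≤ Real.log X ^ (rank a b : ℝ) :=
      Real.rpow_le_rpow_of_exponent_le hl1 (by exact_mod_cast hmr)
    have hE := Real.exp_pos κ
    calc κ' / 2 / (2 * Real.exp κ) * rieszProduct a b k X ≤
        κ' / 2 / (2 * Real.exp κ) * (2 * Real.exp κ * Real.log X ^ (m : ℝ)) := by gcongr
      _ = κ' / 2 * Real.log X ^ (m : ℝ) := by field_simp
      _ ≤ κ' / 2 * Real.log X ^ (rank a b : ℝ) := by gcongr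
      _ ≤ _ := h7.le
  tfae_have 2 → 3 := by
    intro h
    obtain ⟨A, hA, h1⟩ := h 1 one_pos
    refine ⟨1, TH942.RZ.rzv 1, riesz_weight one_pos, A, hA, ?_⟩
    filter_upwards [h1, eventually_gt_atTop 1] with X h2 hX
    rwa [riesz_eq_local hX] at h2
  tfae_have 3 → 4 := by
    rintro ⟨β, w, hw, A, hA, h⟩
    refine ⟨β, w, hw, fun ε hε => ?_⟩
    have h1 : Tendsto (fun X : ℝ => Real.log X ^ ε) atTop atTop :=
      (tendsto_rpow_atTop hε).comp Real.tendsto_log_atTop
    filter_upwards [h, h1.eventually (eventually_ge_atTop (1 / A))] with X h2 h3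
    have h4 : (0 : ℝ) ≤ (pointsUpTo a b X : ℝ) ^ 2 := by positivity
    calc localProduct a b w β X = 1 / A * (A * localProduct a b w β X) := by field_simp
      _ ≤ 1 / A * (pointsUpTo a b X : ℝ) ^ 2 := by gcongr
      _ = (pointsUpTo a b X : ℝ) ^ 2 * (1 / A) := mul_comm _ _
      _ ≤ _ := by gcongr
  tfae_have 4 → 1 := by
    rintro ⟨β, w, hw, h⟩
    obtain ⟨W, hW⟩ := hw.bdd
    have hβ := hw.pos
    set v : ℝ → ℝ := (Set.Ioc 0 β).indicator w with hv
    have hvw : ∀ u, 0 < u → u ≤ β → w u = v u := fun u h1 h2 => by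
      rw [hv, Set.indicator_of_mem (show u ∈ Set.Ioc 0 β from ⟨h1, h2⟩)]
    have hW0 : 0 ≤ W := (abs_nonneg _).trans (hW β hβ le_rfl)
    have hwt : TH942.LS.Wt v W β := by
      refine ⟨hw.meas.indicator measurableSet_Ioc, fun u => ?_, hβ, fun u hu => ?_⟩
      · by_cases h : u ∈ Set.Ioc 0 β
        · rw [hv, Set.indicator_of_mem h]
          exact hW u h.1 h.2
        · rw [hv, Set.indicator_of_notMem h, abs_zero]
          exact hW0
      · rw [hv, Set.indicator_of_notMem (fun h => not_lt.2 h.2 hu)]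
    have hv0 : ∀ u, 0 ≤ v u := fun u =>
      Set.indicator_nonneg (fun x hx => hw.nonneg x hx.1 hx.2) u
    have htop' : ∀ κ, κ < β → ¬ ∀ᵐ x, x ∈ Set.Ioo κ β → v x = 0 := by
      intro κ hκ h
      refine hw.top (max κ 0) (max_lt hκ hβ) ?_
      filter_upwards [h] with u hu hu2
      have h1 : 0 < u := (le_max_right _ _).trans_lt hu2.1
      rw [hvw u h1 hu2.2.le]
      exact hu ⟨(le_max_left _ _).trans_lt hu2.1, hu2.2⟩
    have hdini' : IntegrableOn (fun u : ℝ => |v u - 1| / u) (Set.Ioo 0 β) := by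
      refine hw.dini.congr_fun (fun u hu => ?_) measurableSet_Ioo
      simp only
      rw [hvw u hu.1 hu.2.le]
    obtain ⟨h1, h2⟩ := TH942.OS.order_le hF hm hwt hv0 htop' hdini' (ρ := rank a b) fun ε hε => by
      obtain ⟨A, B, X₁, hA, hB, hN⟩ := TH942.RZ.Self.points_bounds hΔ
      have e1 : ∀ᶠ X : ℝ in atTop, Real.log B ≤ ε / 2 * Real.log (Real.log X) :=
        (loglog_tendsto.const_mul_atTop (by positivity : 0 < ε / 2)).eventually
          (eventually_ge_atTop _)
      have e2 : ∀ᶠ X : ℝ in atTop, TH942.LS.S TH942.LS.lm (TH942.LS.cE a b) v (Real.log X) ≤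
          (rank a b + ε) * Real.log (Real.log X) := by
        filter_upwards [e1, h (ε / 2) (by positivity), eventually_ge_atTop X₁,
          eventually_gt_atTop 1] with X h3 h4 h5 hX
        have hl : 0 < Real.log X := Real.log_pos hX
        have e3 : TH942.LS.S TH942.LS.lm (TH942.LS.cE a b) v (Real.log X) =
            Real.log (localProduct a b w β X) :=
          (TH942.RZ.Self.log_localProduct (a := a) (b := b) hvw hwt hX).symm
        have hN2 : (pointsUpTo a b X : ℝ) ^ 2 ≤ B * Real.log X ^ (rank a b : ℝ) := (hN X h5).2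
        have hN0 : 0 < (pointsUpTo a b X : ℝ) ^ 2 := TH942.RZ.Self.points_pos a b X
        have h6 := Real.log_le_log (localProduct_pos a b w β X) h4
        rw [Real.log_mul hN0.ne' (Real.rpow_pos_of_pos hl _).ne', Real.log_rpow hl] at h6
        have h7 := Real.log_le_log hN0 hN2
        rw [Real.log_mul hB.ne' (Real.rpow_pos_of_pos hl _).ne', Real.log_rpow hl] at h7
        rw [e3]
        linarith
      have e4 := Real.tendsto_exp_atTop.eventually e2
      filter_upwards [e4] with T hT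
      rwa [Real.log_exp] at hT
    refine ⟨hle.2 (by exact_mod_cast h2), hfree h1⟩
  tfae_have 1 → 5 := by
    rintro ⟨h1, h2⟩ k hk ε hε
    have hmr : (m : ℝ) ≤ rank a b := by exact_mod_cast hle.1 h1
    have h3 := TH942.MN.tE_nk hΔ hF hh hb hm h2 hrs hk
    rw [← tendsto_log_iff fun X hX => nagao_eq k hX] at h3
    have h4 : (1 / 2 - rank a b) / (k + 1) - ε < ((1 / 2 - m) / (k + 1) : ℝ) := by
      have : (1 / 2 - rank a b : ℝ) / (k + 1) ≤ (1 / 2 - m) / (k + 1) := by gcongr
      linarith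
    exact (h3.eventually_const_lt h4).mono fun X hX => hX.le
  tfae_have 5 → 6 := fun h => ⟨1, one_pos, h 1 one_pos⟩
  tfae_have 6 → 1 := by
    rintro ⟨k, hk, h⟩
    have hd := TH942.MN.dE_nk hΔ hh hb hk
    have hsplit : ∀ T : ℝ, 0 < T → TH942.LS.S TH942.LS.lm (TH942.LS.cE a b) (TH942.MN.nk k) T =
        TH942.LS.S TH942.LS.lm (TH942.MN.dE a b) (TH942.MN.nk k) T -
          TH942.LS.S TH942.LS.lm (TH942.MN.tE a b) (TH942.MN.nk k) T := by
      intro T hT
      rw [TH942.MN.split hh hb hT (TH942.MN.nk_le hk) (fun u hu => TH942.MN.nk_gt k hu)]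
      ring
    have hlow : ∀ ε : ℝ, 0 < ε → ∀ᶠ T : ℝ in atTop, (1 / 2 - rank a b) / (k + 1) - ε ≤
        TH942.LS.S TH942.LS.lm (TH942.MN.tE a b) (TH942.MN.nk k) T := by
      intro ε hε
      have h1 := Real.tendsto_exp_atTop.eventually (h ε hε)
      filter_upwards [h1, eventually_gt_atTop 0] with T h2 hT
      rw [nagao_eq k (Real.one_lt_exp_iff.2 hT), Real.log_exp] at h2
      exact h2
    have hfr : ∀ s : ℂ, 1 < s.re → F s ≠ 0 := by
      refine hfree (TH942.OS.zero_free_upper hF (TH942.MN.nk_Wt hk) (fun u => ?_)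
        TH942.MN.nk_top (K := 1) ?_).2.2
      · unfold TH942.MN.nk
        refine Set.indicator_nonneg (fun x hx => ?_) u
        exact mul_nonneg hx.1.le (Real.rpow_nonneg (by linarith [hx.2]) k)
      · filter_upwards [hlow 1 one_pos, hd.eventually_lt_const (lt_add_one _),
          eventually_ge_atTop ((1 / 2) * (1 / (k + 1)) + 1 -
            ((1 / 2 - rank a b) / (k + 1) - 1)), eventually_gt_atTop 0] with T h1 h2 h3 hT
        rw [hsplit T hT]
        linarith
    refine ⟨?_, hfr⟩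
    have h3 := TH942.MN.tE_nk hΔ hF hh hb hm hfr hrs hk
    have h4 : ((1 / 2 - rank a b) / (k + 1) : ℝ) ≤ (1 / 2 - m) / (k + 1) := by
      refine le_of_forall_pos_le_add fun ε hε => ?_
      have := ge_of_tendsto h3 (hlow ε hε)
      linarith
    have h5 : (0 : ℝ) < k + 1 := by linarith
    rw [div_le_div_iff_of_pos_right h5] at h4
    rw [hle]
    have h6 : (m : ℝ) ≤ rank a b := by linarith
    exact_mod_cast h6
  tfae_finish

end Pool.Agent.Results.MP_8b7eba_nt.OneSidedLaw
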