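import Pool.Agent.TH204.TP.P11

/-! # Prime quadratic twists of positive rank for almost all elliptic curves

Let `|a| ≤ T²` be ANY coefficient. For every modulus `M` and every power `U` all but
`T³ / (log T) ^ U` of the curves `y² = x³ + a x + b`, `|b| ≤ T³`, have the following property. For
both signs `s = ±1`, for every class `c³` modulo `M` (`c` prime to `M`) and for all real `Y` between
`T² (log T) ^ B` and `T³ / (log T) ^ B` there are at least `Y / (T² (log T)²)` primes `p ≤ Y`,
`p ≡ c³ (mod M)`, such that the quadratic twist by `s p` has infinitely many rational points; `B`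
does not depend on `a`. With `a = 0` these are all the curves `y² = x³ + b`; summing over `a` they
are almost all elliptic curves over `ℚ`.

Proof: with `D = 6 M` and `m ≡ c (mod D)` let `p = m³ + D⁴ a m + D⁶ b`. Then `(p m / D², p² / D³)`
is a point on the twist by `p`, and it has infinite order because it is not integral at `2`. That
this polynomial represents primes for almost all `b`, already for the `m` next to its real root
(where its values are of the size `T²`), uniformly in `a`, is proved by a second moment over `b`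
(a truncated singular series, primes in progressions, exponential sums of cubic polynomials with
coefficients of the size of a power of the length). -/

set_option autoImplicit false

namespace Pool.Agent.Results.MP_8b7eba_nt.PrimeTwistsAlmostAllCurves

/-- the affine rational points of the quadratic twist `y² = x³ + A t² x + B t³` of
`y² = x³ + A x + B` -/
def TwistPoints (A B t : ℤ) : Set (ℚ × ℚ) :=
  {p | p.2 ^ 2 = p.1 ^ 3 + (A * t ^ 2 : ℤ) * p.1 + (B * t ^ 3 : ℤ)}

theorem result (M : ℕ) (hM : 0 < M) (U : ℕ) :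
    ∃ B T₀ : ℕ, ∀ T : ℕ, T₀ ≤ T → ∀ a : ℤ, |a| ≤ (T : ℤ) ^ 2 →
      ({b : ℤ | |b| ≤ (T : ℤ) ^ 3 ∧
        ¬ ∀ c : ℤ, IsCoprime c (M : ℤ) → ∀ s ∈ ({1, -1} : Set ℤ), ∀ Y : ℝ,
          (T : ℝ) ^ 2 * Real.log T ^ B ≤ Y → Y ≤ (T : ℝ) ^ 3 / Real.log T ^ B →
          Y / ((T : ℝ) ^ 2 * Real.log T ^ 2) ≤
            ({p : ℕ | p.Prime ∧ (p : ℝ) ≤ Y ∧ (p : ℤ) ≡ c ^ 3 [ZMOD M] ∧
              (TwistPoints a b (s * p)).Infinite}.ncard : ℝ)}.ncard : ℝ) ≤
        (T : ℝ) ^ 3 / Real.log T ^ U := by
  obtain ⟨B, T₀, h⟩ := Pool.Agent.TH204.TP.main M hM U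
  refine ⟨B, T₀, fun T hT a ha => ?_⟩
  obtain ⟨Bad, h1, h2⟩ := h T hT a ha
  refine le_trans ?_ h1
  rw [← Set.ncard_coe_finset Bad]
  rw [Nat.cast_le]
  refine Set.ncard_le_ncard (fun b hb => ?_) Bad.finite_toSet
  obtain ⟨hb, hq⟩ := hb
  by_contra hn
  apply hq
  intro c hc s hs Y hY1 hY2
  refine h2 b hb (fun h => hn (by exact_mod_cast h)) c hc s ?_ Y hY1 hY2
  simpa using hs

end Pool.Agent.Results.MP_8b7eba_nt.PrimeTwistsAlmostAllCurves
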