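import Pool.Agent.TH4.CT.FamB

/-! # Clusters of twists of positive rank in intervals of bounded length

Let `E : y² = x³ + b³` be an elliptic curve with `j = 0` and a rational point of order two. For both
signs `e`, every modulus `M` and every class which contains a squarefree number `g` there are, for
every `m`, intervals of length `2 C m⁶` with at least `m` squarefree `d ≡ g (mod M)` such that the
twist of `E` by `e d` has infinitely many rational points; at least `c X^(1/3)` of the centres
`n ≤ X` have this property, with `c`, `C` independent of `m`.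

Proof: with `c = b e g` the number `d = g (t³ + c³ k⁶)`, `k = M l`, `t ≡ 1 (mod M)`, lies near
`g t³`, and `x = t / (c k²)` is a point of large height on the twist. It is a product of a linear
and a quadratic polynomial in `t`; squares of primes are sieved for all `l ≤ m` together. -/

set_option autoImplicit false

namespace Pool.Agent.Results.MP_8b7eba_nt.TwistTuples

open Filter

/-- the affine rational points of the quadratic twist `y² = x³ + A t² x + B t³` of
`y² = x³ + A x + B` -/
def TwistPoints (A B t : ℤ) : Set (ℚ × ℚ) :=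
  {p | p.2 ^ 2 = p.1 ^ 3 + (A * t ^ 2 : ℤ) * p.1 + (B * t ^ 3 : ℤ)}

theorem result (b : ℤ) (hb : b ≠ 0) (e : ℤ) (he : e = 1 ∨ e = -1) (g M : ℕ) (hg : Squarefree g)
    (hM : 0 < M) :
    ∃ C : ℕ, ∃ c : ℝ, 0 < c ∧ ∀ m : ℕ, ∀ᶠ X : ℕ in atTop, c * (X : ℝ) ^ (1 / (3 : ℝ)) ≤
      ({n : ℕ | 0 < n ∧ n ≤ X ∧ m ≤ {d : ℕ | |(d : ℤ) - n| ≤ ((C * m ^ 6 : ℕ) : ℤ) ∧
        (Squarefree d ∧ d ≡ g [MOD M] ∧ (TwistPoints 0 (b ^ 3) (e * d)).Infinite)}.ncard}.ncard
          : ℝ) := by
  have key : ∀ d : ℕ, TwistPoints 0 (b ^ 3) (e * d) =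
      {p : ℚ × ℚ | p.2 ^ 2 = p.1 ^ 3 + ((b ^ 3 * (e * d) ^ 3 : ℤ) : ℚ)} := by
    intro d
    unfold TwistPoints
    ext p
    simp only [Set.mem_ofPred_eq, zero_mul, Int.cast_zero, add_zero]
  simp only [key]
  exact Pool.Agent.TH4.CT.twist_clusters b hb g M hg hM e he

end Pool.Agent.Results.MP_8b7eba_nt.TwistTuples
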