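import Pool.Agent.TH827.TW.All

/-! # Quadratic twists of infinite order in every short interval

Let `E : y² = x³ + A x + B` be an elliptic curve over `ℚ` with full rational 2-torsion: the cubic
has three distinct integer roots. For every `θ > 2/3`, every modulus `M`, every class `a` prime to
`M` and both signs `e = ±1`, every interval `[X, X + C X ^ θ]` contains at least `X ^ (1/12)`
squarefree `d ≡ a (mod M)` such that the quadratic twist of `E` by `e d` has infinitely many
rational points. For these twists `L(E_{ed}, 1) = 0` (Gross-Zagier, Kolyvagin), so that both sides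
of the weak Birch and Swinnerton-Dyer equivalence hold.

Proof. With `p = e₂ - e₁ < q = e₃ - e₁` the value `f(b, x) = b (p x² - b) (q x² - b)`, divided by a
fixed square `a²`, is such a `d` if it is squarefree and `b / x²` has large height. For `x` the
first suitable integer with `max_b f(b, x) > a² X` and `b` near the critical point, consecutive
values differ by about `X ^ (7/12)`; squares of large primes are sieved out in a window of
`X ^ (1/12 + ε)` consecutive `b` by second differences, small primes by congruences (`x ≡ 0`,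
`b ≡ a` modulo a multiple of `M`, `x ≡ 1`, `b ≡ a²` modulo `a³`). -/

set_option autoImplicit false

namespace Pool.Agent.Results.MP_8b7eba_nt.TwistsEveryInterval

/-- the affine rational points of the quadratic twist `y² = x³ + A t² x + B t³` -/
def TwistPoints (A B t : ℤ) : Set (ℚ × ℚ) :=
  {p | p.2 ^ 2 = p.1 ^ 3 + (A * t ^ 2 : ℤ) * p.1 + (B * t ^ 3 : ℤ)}

theorem result (A B e₁ e₂ e₃ : ℤ)
    (hE : ∀ x : ℚ, x ^ 3 + A * x + B = (x - e₁) * (x - e₂) * (x - e₃))
    (h12 : e₁ ≠ e₂) (h13 : e₁ ≠ e₃) (h23 : e₂ ≠ e₃) (M : ℕ) (hM : 0 < M)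
    (θ : ℝ) (hθ : 2 / 3 < θ) :
    ∃ C : ℝ, 0 < C ∧ ∀ X : ℝ, 1 ≤ X → ∀ a : ℕ, a.Coprime M → ∀ e ∈ ({1, -1} : Set ℤ),
      X ^ (1 / 12 : ℝ) ≤ ({d : ℕ | X ≤ d ∧ (d : ℝ) ≤ X + C * X ^ θ ∧ Squarefree d ∧
        d ≡ a [MOD M] ∧ (TwistPoints A B (e * d)).Infinite}.ncard : ℝ) := by
  obtain ⟨C, hC, H⟩ := Pool.Agent.TH827.TW.all_classes A B e₁ e₂ e₃ hE h12 h13 h23 M hM θ hθ
  refine ⟨C, hC, fun X hX a ha e he => ?_⟩
  obtain ⟨g1, g2⟩ := H X hX a ha
  have h1 : ∀ d : ℕ, TwistPoints A B (1 * d) =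
      {p : ℚ × ℚ | p.2 ^ 2 = p.1 ^ 3 + A * (d : ℚ) ^ 2 * p.1 + B * (d : ℚ) ^ 3} := by
    intro d
    unfold TwistPoints
    push_cast
    simp only [one_mul]
  have h2 : ∀ d : ℕ, TwistPoints A B (-1 * d) =
      {p : ℚ × ℚ | p.2 ^ 2 = p.1 ^ 3 + A * (d : ℚ) ^ 2 * p.1 + ((-B : ℤ) : ℚ) * (d : ℚ) ^ 3} := by
    intro d
    unfold TwistPoints
    have e1 : (-1 * (d : ℤ)) ^ 2 = (d : ℤ) ^ 2 := by ring
    have e2 : (-1 * (d : ℤ)) ^ 3 = -(d : ℤ) ^ 3 := by ring
    rw [e1, e2]
    push_cast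
    simp only [mul_neg, neg_mul]
  rcases he with rfl | he
  · simp only [h1]
    exact g1
  · rw [Set.mem_singleton_iff] at he
    subst he
    simp only [h2]
    exact g2

end Pool.Agent.Results.MP_8b7eba_nt.TwistsEveryInterval
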